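import Pool.Agent.U631.LW.Jac

/-!
# Deicke's theorem

If the determinant of the Hessian of the square `Q` of a Minkowski norm is constant then `Q` is
quadratic. Proof: by `det A = const` the inverse matrix `P` of the Hessian `A` is divergence free, so
for `f = ∂_k ∂_k Q` the function `L f = Σ P_ij ∂_i ∂_j f = tr ((P ∂_k A)²) ≥ 0` is the divergence of the
field `P ∇ f`, which is tangent to the level sets of `Q` as `f` is homogeneous of degree `0`. So the
integral of `χ(Q) L f` vanishes for all `χ` with compact support in `(0, ∞)`.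
-/

set_option autoImplicit false

open scoped BigOperators ContDiff Topology
open Filter Set MeasureTheory

namespace Pool.Agent.U631.LW

open Pool.Agent.R774.BW

variable {n : ℕ}

section
open scoped MatrixOrder Matrix.Norms.L2Operator Matrix

theorem tr_pos {m : ℕ} {P S : Matrix (Fin m) (Fin m) ℝ} (hP : P.PosDef) (hS : S.transpose = S) :
    0 ≤ (P * S * P * S).trace ∧ ((P * S * P * S).trace = 0 → S = 0) := by
  obtain ⟨B, hB⟩ := CStarAlgebra.nonneg_iff_eq_star_mul_self.mp hP.posSemidef.nonneg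
  have hB' : P = Bᵀ * B := by
    rw [hB, Matrix.star_eq_conjTranspose, Matrix.conjTranspose_eq_transpose_of_trivial]
  have hdet : B.det ≠ 0 := by
    intro h
    have := hP.det_pos
    rw [hB', Matrix.det_mul, h, mul_zero] at this
    exact lt_irrefl _ this
  set N := B * S * Bᵀ with hN
  have hNt : Nᵀ = N := by
    rw [hN, Matrix.transpose_mul, Matrix.transpose_mul, Matrix.transpose_transpose, hS,
      ← mul_assoc]
  have h1 : (P * S * P * S).trace = (Nᵀ * N).trace := by
    rw [hNt, hN, hB']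
    rw [show Bᵀ * B * S * (Bᵀ * B) * S = Bᵀ * (B * S * Bᵀ * B * S) by simp only [mul_assoc],
      Matrix.trace_mul_comm]
    simp only [mul_assoc]
  have h2 : (Nᵀ * N).trace = ∑ i, ∑ j, N j i ^ 2 := by
    rw [Matrix.trace]
    refine Finset.sum_congr rfl fun i _ => ?_
    rw [Matrix.diag_apply, Matrix.mul_apply]
    exact Finset.sum_congr rfl fun j _ => by rw [Matrix.transpose_apply]; ring
  rw [h1, h2]
  refine ⟨Finset.sum_nonneg fun i _ => Finset.sum_nonneg fun j _ => sq_nonneg _, fun h0 => ?_⟩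
  have h3 : N = 0 := by
    ext j i
    have h4 := (Finset.sum_eq_zero_iff_of_nonneg
      (fun i _ => Finset.sum_nonneg fun j _ => sq_nonneg (N j i))).1 h0 i (Finset.mem_univ _)
    have h5 := (Finset.sum_eq_zero_iff_of_nonneg (fun j _ => sq_nonneg (N j i))).1 h4 j
      (Finset.mem_univ _)
    simpa using h5
  have hu : IsUnit B.det := isUnit_iff_ne_zero.2 hdet
  have h6 : S = B⁻¹ * N * (Bᵀ)⁻¹ := by
    have hu' : IsUnit (Bᵀ).det := by rwa [Matrix.det_transpose]
    rw [hN, show B⁻¹ * (B * S * Bᵀ) * (Bᵀ)⁻¹ = (B⁻¹ * B) * S * (Bᵀ * (Bᵀ)⁻¹) by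
      simp only [mul_assoc], Matrix.nonsing_inv_mul _ hu, Matrix.mul_nonsing_inv _ hu', one_mul,
      mul_one]
  rw [h6, h3, mul_zero, zero_mul]

end

/-- a smooth bump function of `Q` -/
structure Bump (Q g : (Fin n → ℝ) → ℝ) : Prop where
  smooth : ContDiff ℝ ∞ g
  comp : HasCompactSupport g
  supp : ∀ y ∈ tsupport g, y ≠ 0
  nonneg : ∀ y, 0 ≤ g y
  fn : ∃ χ' : ℝ → ℝ, ∀ k, ∀ y, y ≠ 0 → pd k g y = χ' (Q y) * pd k Q y
  pos : ∀ y, y ≠ 0 → ∃ t : ℝ, 0 < t ∧ 0 < g (t • y)

section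
variable {Q : (Fin n → ℝ) → ℝ} (hQ : MN Q)
include hQ

theorem exists_bounds (hn : 1 ≤ n) : ∃ m M : ℝ, 0 < m ∧ 0 < M ∧ ∀ y, y ≠ 0 →
    m * ‖y‖ ^ 2 ≤ Q y ∧ Q y ≤ M * ‖y‖ ^ 2 := by
  have hf : ∀ y : Fin n → ℝ, y ≠ 0 → ContinuousAt (fun y => Q y / ‖y‖ ^ 2) y := by
    intro y hy
    refine ((hQ.sm y hy).continuousAt).div (continuous_norm.pow 2).continuousAt ?_
    exact pow_ne_zero 2 (norm_ne_zero_iff.2 hy)
  have hh : ∀ y : Fin n → ℝ, y ≠ 0 → ∀ t : ℝ, 0 < t →
      Q (t • y) / ‖t • y‖ ^ 2 = Q y / ‖y‖ ^ 2 := by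
    intro y hy t ht
    rw [hQ.hom y hy t ht, norm_smul, Real.norm_of_nonneg ht.le, mul_pow]
    have h1 : t ^ 2 ≠ 0 := pow_ne_zero 2 ht.ne'
    rw [mul_div_mul_left _ _ h1]
  obtain ⟨y₁, h1, h2⟩ := exists_max hn hf hh
  obtain ⟨y₂, h3, h4⟩ := exists_max hn (f := fun y => -(Q y / ‖y‖ ^ 2))
    (fun y hy => (hf y hy).neg) (fun y hy t ht => by rw [hh y hy t ht])
  have hp : ∀ y : Fin n → ℝ, y ≠ 0 → 0 < ‖y‖ ^ 2 := fun y hy => pow_pos (norm_pos_iff.2 hy) 2
  refine ⟨Q y₂ / ‖y₂‖ ^ 2, Q y₁ / ‖y₁‖ ^ 2, div_pos (hQ.pos _ h3) (hp _ h3),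
    div_pos (hQ.pos _ h1) (hp _ h1), fun y hy => ⟨?_, ?_⟩⟩
  · have := h4 y hy
    rw [← le_div_iff₀ (hp y hy)]
    linarith
  · rw [← div_le_iff₀ (hp y hy)]
    exact h2 y hy

theorem exists_bump (hn : 1 ≤ n) : ∃ g, Bump Q g := by
  obtain ⟨m, M, hm, hM, hb⟩ := exists_bounds hQ hn
  let χ : ContDiffBump (3 / 2 : ℝ) := ⟨1 / 4, 1 / 2, by norm_num, by norm_num⟩
  have hχs : ContDiff ℝ ∞ (χ : ℝ → ℝ) := χ.contDiff
  have hχ0 : ∀ s, (s ≤ 1 ∨ 2 ≤ s) → χ s = 0 := by
    intro s hs
    apply χ.zero_of_le_dist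
    show (1 / 2 : ℝ) ≤ dist s (3 / 2)
    rw [Real.dist_eq, le_abs]
    rcases hs with h | h
    · right; linarith
    · left; linarith
  classical
  set g : (Fin n → ℝ) → ℝ := fun y => if y = 0 then 0 else χ (Q y) with hg
  have hgev : ∀ y, y ≠ 0 → g =ᶠ[𝓝 y] fun z => χ (Q z) := by
    intro y hy
    filter_upwards [isOpen_ne0.mem_nhds hy] with z hz
    exact if_neg hz
  have hg0 : ∀ z : Fin n → ℝ, M * ‖z‖ ^ 2 < 1 → g z = 0 := by
    intro z hz
    by_cases h : z = 0
    · exact if_pos h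
    · rw [hg]
      simp only [h, if_false]
      exact hχ0 _ (Or.inl ((hb z h).2.trans hz.le))
  have hev0 : ∀ᶠ z : Fin n → ℝ in 𝓝 0, g z = 0 := by
    have hc : Continuous fun z : Fin n → ℝ => M * ‖z‖ ^ 2 := by fun_prop
    have h1 : {z : Fin n → ℝ | M * ‖z‖ ^ 2 < 1} ∈ 𝓝 (0 : Fin n → ℝ) :=
      (isOpen_lt hc continuous_const).mem_nhds (by simp)
    filter_upwards [h1] with z hz using hg0 z hz
  have hcomp : ∀ z : Fin n → ℝ, z ∉ Metric.closedBall (0 : Fin n → ℝ) (2 / m + 1) → g z = 0 := by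
    intro z hz
    rw [mem_closedBall_zero_iff, not_le] at hz
    have h2m : 0 < 2 / m := by positivity
    have hz0 : z ≠ 0 := by
      rintro rfl
      rw [norm_zero] at hz
      linarith
    rw [hg]
    simp only [hz0, if_false]
    refine hχ0 _ (Or.inr (le_trans ?_ (hb z hz0).1))
    have h1 : 2 / m ≤ ‖z‖ ^ 2 := by nlinarith
    rw [div_le_iff₀ hm] at h1
    linarith
  have hsm : ContDiff ℝ ∞ g := by
    rw [contDiff_iff_contDiffAt]
    intro y
    by_cases hy : y = 0
    · subst hy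
      exact (contDiffAt_const (c := (0 : ℝ))).congr_of_eventuallyEq hev0
    · exact (hχs.contDiffAt.comp y (hQ.sm y hy)).congr_of_eventuallyEq (hgev y hy)
  refine ⟨g, hsm, HasCompactSupport.intro (isCompact_closedBall _ _) hcomp, ?_, ?_, ?_, ?_⟩
  · rintro y hy rfl
    exact (notMem_tsupport_iff_eventuallyEq.2 hev0) hy
  · intro y
    rw [hg]
    by_cases h : y = 0
    · simp [h]
    · simp only [h, if_false]
      exact χ.nonneg
  · refine ⟨deriv χ, fun k y hy => ?_⟩
    unfold pd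
    rw [(hgev y hy).fderiv_eq]
    have h1 : HasDerivAt (χ : ℝ → ℝ) (deriv χ (Q y)) (Q y) :=
      (hχs.differentiable (by simp) (Q y)).hasDerivAt
    have h2 := h1.comp_hasFDerivAt y (hQ.sm.diff hy).hasFDerivAt
    have h3 : fderiv ℝ (fun z => χ (Q z)) y = deriv χ (Q y) • fderiv ℝ Q y := h2.fderiv
    rw [h3]
    rfl
  · intro y hy
    have hq := hQ.pos y hy
    have ht : 0 < Real.sqrt (3 / 2 / Q y) := Real.sqrt_pos.2 (by positivity)
    refine ⟨Real.sqrt (3 / 2 / Q y), ht, ?_⟩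
    have h0 : Real.sqrt (3 / 2 / Q y) • y ≠ 0 := smul_ne_zero ht.ne' hy
    rw [hg]
    simp only [h0, if_false]
    rw [hQ.hom y hy _ ht, Real.sq_sqrt (by positivity), div_mul_cancel₀ _ hq.ne']
    apply χ.pos_of_mem_ball
    simp only [Metric.mem_ball, dist_self]
    exact χ.rOut_pos

/-- `P` is divergence free -/
theorem div_P (hth : ∀ y, y ≠ 0 → ∀ k, th Q k y = 0) {y : Fin n → ℝ} (hy : y ≠ 0) (j : Fin n) :
    ∑ i, pd i (P Q i j) y = 0 := by
  have h1 : ∀ i, pd i (P Q i j) y =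
      - ∑ b, (∑ a, P Q i a y * pd b (pd i (pd a Q)) y) * P Q b j y := by
    intro i
    rw [pd_P hQ i i j hy, Finset.sum_comm]
    congr 1
    refine Finset.sum_congr rfl fun b _ => ?_
    rw [Finset.sum_mul]
    refine Finset.sum_congr rfl fun a _ => ?_
    rw [pd3_symm2 hQ i a b hy, pd3_symm1 hQ i b a hy]
  rw [Finset.sum_congr rfl fun i _ => h1 i, Finset.sum_neg_distrib, neg_eq_zero,
    Finset.sum_comm]
  refine Finset.sum_eq_zero fun b _ => ?_
  rw [← Finset.sum_mul]
  have h2 : ∑ i, ∑ a, P Q i a y * pd b (pd i (pd a Q)) y = th Q b y := rfl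
  rw [h2, hth y hy b, zero_mul]

/-- the elliptic operator on `∂_k ∂_k Q` -/
theorem lap (hth : ∀ y, y ≠ 0 → ∀ k, th Q k y = 0) {y : Fin n → ℝ} (hy : y ≠ 0) (k : Fin n) :
    ∑ i, ∑ j, P Q i j y * pd i (pd j (pd k (pd k Q))) y =
      ((A Q y)⁻¹ * (Matrix.of fun i j => pd k (pd i (pd j Q)) y) * (A Q y)⁻¹ *
        (Matrix.of fun i j => pd k (pd i (pd j Q)) y)).trace := by
  have e := pd_congr (f := th Q k) (g := fun _ => (0 : ℝ)) (fun z hz => hth z hz k) k hy
  rw [pd_const] at e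
  have s3 : ∀ i j, Sm (pd k (pd i (pd j Q))) := fun i j => ((hQ.sm.pd j).pd i).pd k
  have e2 : pd k (th Q k) y = ∑ i, ∑ j, (pd k (P Q i j) y * pd k (pd i (pd j Q)) y +
      P Q i j y * pd k (pd k (pd i (pd j Q))) y) := by
    have : th Q k = fun y => ∑ i, ∑ j, P Q i j y * pd k (pd i (pd j Q)) y := rfl
    rw [this, pd_sum (fun i _ => Sm.sum fun j _ => (P_sm hQ i j).mul (s3 i j)) k hy]
    refine Finset.sum_congr rfl fun i _ => ?_
    rw [pd_sum (fun j _ => (P_sm hQ i j).mul (s3 i j)) k hy]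
    exact Finset.sum_congr rfl fun j _ => pd_mul (P_sm hQ i j) (s3 i j) k hy
  have e3 : ∀ i j, pd k (pd k (pd i (pd j Q))) y = pd i (pd j (pd k (pd k Q))) y := by
    intro i j
    have a1 : pd k (pd k (pd i (pd j Q))) y = pd k (pd i (pd j (pd k Q))) y :=
      pd_congr (fun z hz => by rw [pd3_symm1 hQ k i j hz, pd3_symm2 hQ i k j hz]) k hy
    have a2 : pd k (pd i (pd j (pd k Q))) y = pd i (pd k (pd j (pd k Q))) y :=
      pd_comm ((hQ.sm.pd k).pd j) k i hy
    have a3 : pd i (pd k (pd j (pd k Q))) y = pd i (pd j (pd k (pd k Q))) y :=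
      pd_congr (fun z hz => pd3_symm1 hQ k j k hz) i hy
    rw [a1, a2, a3]
  rw [e2] at e
  simp only [Finset.sum_add_distrib, e3] at e
  have e4 : ∑ i, ∑ j, P Q i j y * pd i (pd j (pd k (pd k Q))) y =
      - ∑ i, ∑ j, pd k (P Q i j) y * pd k (pd i (pd j Q)) y := by linarith
  rw [e4, Matrix.trace, ← Finset.sum_neg_distrib]
  refine Finset.sum_congr rfl fun i _ => ?_
  rw [Matrix.diag_apply, Matrix.mul_apply, ← Finset.sum_neg_distrib]
  refine Finset.sum_congr rfl fun j _ => ?_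
  rw [pd_P hQ k i j hy]
  have e5 : (((A Q y)⁻¹ * (Matrix.of fun i j => pd k (pd i (pd j Q)) y) * (A Q y)⁻¹ :
      Matrix (Fin n) (Fin n) ℝ) i j) =
      ∑ a, ∑ b, P Q i a y * pd k (pd a (pd b Q)) y * P Q b j y := by
    rw [Matrix.mul_apply, Finset.sum_comm]
    refine Finset.sum_congr rfl fun b _ => ?_
    rw [Matrix.mul_apply, Finset.sum_mul]
    rfl
  rw [e5, neg_mul, neg_neg]
  congr 1
  exact pd3_symm2 hQ k i j hy

/-- the divergence theorem -/
theorem int_lap (hth : ∀ y, y ≠ 0 → ∀ k, th Q k y = 0) {g : (Fin n → ℝ) → ℝ} (hg : Bump Q g)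
    {f : (Fin n → ℝ) → ℝ} (hf : Sm f) (hf0 : Hom 0 f) :
    ∫ y, g y * ∑ i, ∑ j, P Q i j y * pd i (pd j f) y = 0 := by
  have hV : ∀ i, Sm (fun y => ∑ j, P Q i j y * pd j f y) := fun i =>
    Sm.sum fun j _ => (P_sm hQ i j).mul (hf.pd j)
  set V : Fin n → (Fin n → ℝ) → ℝ := fun i y => ∑ j, P Q i j y * pd j f y with hVd
  obtain ⟨χ', hχ'⟩ := hg.fn
  -- continuity and integrability
  have hcont : ∀ h : (Fin n → ℝ) → ℝ, (∀ y, y ≠ 0 → ContinuousAt h y) →
      Continuous (fun y => g y * h y) ∧ HasCompactSupport (fun y => g y * h y) := by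
    intro h hh
    have hcs : HasCompactSupport (fun y => g y * h y) := hg.comp.mul_right
    refine ⟨continuous_of_tsupport fun y hy => ?_, hcs⟩
    have hy0 : y ≠ 0 := hg.supp y (tsupport_mul_subset_left hy)
    exact (hg.smooth.continuous.continuousAt).mul (hh y hy0)
  have hint : ∀ h : (Fin n → ℝ) → ℝ, (∀ y, y ≠ 0 → ContinuousAt h y) →
      Integrable (fun y => g y * h y) := fun h hh =>
    (hcont h hh).1.integrable_of_hasCompactSupport (hcont h hh).2
  have hdg : ∀ i, Continuous (fun y => pd i g y) := by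
    intro i
    have h1 : Continuous (fderiv ℝ g) := hg.smooth.continuous_fderiv (by simp)
    exact h1.clm_apply continuous_const
  have hdgs : ∀ i, tsupport (fun y => pd i g y) ⊆ tsupport g := by
    intro i
    refine closure_minimal ?_ (isClosed_tsupport g)
    intro y hy
    by_contra hy'
    have h1 := notMem_tsupport_iff_eventuallyEq.1 hy'
    apply hy
    show fderiv ℝ g y (Pi.single i (1 : ℝ)) = 0
    have h2 : fderiv ℝ g y = fderiv ℝ (fun _ : Fin n → ℝ => (0 : ℝ)) y := h1.fderiv_eq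
    rw [h2]; simp
  have hint2 : ∀ i, Integrable (fun y => pd i g y * V i y) := by
    intro i
    have hcs : HasCompactSupport (fun y => pd i g y) :=
      hg.comp.of_isClosed_subset (isClosed_tsupport _) (hdgs i)
    refine Continuous.integrable_of_hasCompactSupport (continuous_of_tsupport fun y hy => ?_)
      hcs.mul_right
    have hy0 : y ≠ 0 := hg.supp y (hdgs i (tsupport_mul_subset_left hy))
    exact ((hdg i).continuousAt).mul ((hV i y hy0).continuousAt)
  have key : ∀ i, ∫ y, g y * pd i (V i) y = - ∫ y, pd i g y * V i y := by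
    intro i
    refine integral_mul_fderiv_eq_neg_fderiv_mul_of_integrable (f := g) (g := V i)
      (v := (Pi.single i (1 : ℝ) : Fin n → ℝ)) (hint2 i)
      (hint _ fun y hy => (((hV i).pd i) y hy).continuousAt)
      (hint _ fun y hy => (hV i y hy).continuousAt)
      (fun y _ => hg.smooth.differentiable (by simp) y)
      (fun y hy => (hV i).diff (hg.supp y hy))
  -- the divergence
  have hdiv : ∀ y, y ≠ 0 → ∑ i, pd i (V i) y = ∑ i, ∑ j, P Q i j y * pd i (pd j f) y := by
    intro y hy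
    have h1 : ∀ i, pd i (V i) y =
        ∑ j, (pd i (P Q i j) y * pd j f y + P Q i j y * pd i (pd j f) y) := by
      intro i
      rw [hVd]
      simp only
      rw [pd_sum (fun j _ => (P_sm hQ i j).mul (hf.pd j)) i hy]
      exact Finset.sum_congr rfl fun j _ => pd_mul (P_sm hQ i j) (hf.pd j) i hy
    rw [Finset.sum_congr rfl fun i _ => h1 i]
    simp only [Finset.sum_add_distrib]
    have h2 : ∑ i, ∑ j, pd i (P Q i j) y * pd j f y = 0 := by
      rw [Finset.sum_comm]
      refine Finset.sum_eq_zero fun j _ => ?_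
      rw [← Finset.sum_mul, div_P hQ hth hy j, zero_mul]
    rw [h2, zero_add]
  have htan : ∀ y, ∑ i, pd i g y * V i y = 0 := by
    intro y
    by_cases hy : y = 0
    · have : ∀ i, pd i g y = 0 := by
        intro i
        by_contra h
        exact hg.supp y (hdgs i (subset_tsupport _ h)) hy
      simp [this]
    · have h1 : ∀ i, pd i g y * V i y = χ' (Q y) * ∑ j, P Q i j y * pd i Q y * pd j f y := by
        intro i
        rw [hχ' i y hy, hVd, mul_assoc, Finset.mul_sum]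
        congr 1
        exact Finset.sum_congr rfl fun j _ => by ring
      rw [Finset.sum_congr rfl fun i _ => h1 i, ← Finset.mul_sum, Finset.sum_comm]
      have h2 : ∀ j, ∑ i, P Q i j y * pd i Q y * pd j f y = y j * pd j f y := by
        intro j
        rw [← Finset.sum_mul, ← P_grad hQ hy j]
        congr 1
        exact Finset.sum_congr rfl fun i _ => by rw [P_symm hQ hy i j]
      rw [Finset.sum_congr rfl fun j _ => h2 j, hf0.euler hf hy]
      simp
  have h1 : ∫ y, g y * ∑ i, ∑ j, P Q i j y * pd i (pd j f) y = ∫ y, ∑ i, g y * pd i (V i) y := by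
    congr 1
    ext y
    by_cases hy : y = 0
    · have : g y = 0 := by
        by_contra h
        exact hg.supp y (subset_tsupport _ h) hy
      simp [this]
    · rw [← Finset.mul_sum, hdiv y hy]
  rw [h1, integral_finset_sum _ fun i _ => hint _ fun y hy => (((hV i).pd i) y hy).continuousAt,
    Finset.sum_congr rfl fun i _ => key i, Finset.sum_neg_distrib,
    ← integral_finset_sum _ fun i _ => hint2 i]
  simp [htan]

end

/-- **Deicke's theorem** -/
theorem dei : S_dei := by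
  intro n Q hQ hth y hy i j k
  have hn : 1 ≤ n := by
    by_contra h
    have h0 : n = 0 := by omega
    subst h0
    exact hy (Subsingleton.elim _ _)
  obtain ⟨g, hg⟩ := exists_bump hQ hn
  have hf : Sm (pd k (pd k Q)) := (hQ.sm.pd k).pd k
  have h1 := int_lap hQ hth hg hf (hom_pd2 hQ k k)
  have hS : ∀ z, z ≠ 0 → (Matrix.of fun i j => pd k (pd i (pd j Q)) z :
      Matrix (Fin n) (Fin n) ℝ).transpose = Matrix.of fun i j => pd k (pd i (pd j Q)) z := by
    intro z hz
    ext a b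
    exact pd3_symm2 hQ k b a hz
  set Lf : (Fin n → ℝ) → ℝ := fun z => ∑ i, ∑ j, P Q i j z * pd i (pd j (pd k (pd k Q))) z with hLf
  have hLc : ∀ z, z ≠ 0 → ContinuousAt Lf z := fun z hz =>
    ((Sm.sum fun i _ => Sm.sum fun j _ => (P_sm hQ i j).mul ((hf.pd j).pd i)) z hz :
      ContDiffAt ℝ ∞ Lf z).continuousAt
  have hcs : HasCompactSupport (fun z => g z * Lf z) := hg.comp.mul_right
  have hc : Continuous (fun z => g z * Lf z) := continuous_of_tsupport fun z hz =>
    (hg.smooth.continuous.continuousAt).mul (hLc z (hg.supp z (tsupport_mul_subset_left hz)))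
  have hnn : (0 : (Fin n → ℝ) → ℝ) ≤ fun z => g z * Lf z := by
    intro z
    show 0 ≤ g z * Lf z
    by_cases hz : z = 0
    · have : g z = 0 := by
        by_contra h
        exact hg.supp z (subset_tsupport _ h) hz
      rw [this, zero_mul]
    · refine mul_nonneg (hg.nonneg z) ?_
      rw [hLf]
      simp only
      rw [lap hQ hth hz k]
      exact (tr_pos (P_posDef hQ hz) (hS z hz)).1
  obtain ⟨t, ht, hgt⟩ := hg.pos y hy
  have hty : t • y ≠ 0 := smul_ne_zero ht.ne' hy
  have h2 : Lf (t • y) = 0 := by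
    by_contra h
    have := hc.integral_pos_of_hasCompactSupport_nonneg_nonzero (μ := volume) hcs hnn
      (x := t • y) (mul_ne_zero hgt.ne' h)
    rw [h1] at this
    exact lt_irrefl _ this
  rw [hLf] at h2
  simp only at h2
  rw [lap hQ hth hty k] at h2
  have h3 := (tr_pos (P_posDef hQ hty) (hS _ hty)).2 h2
  have h4 : pd k (pd i (pd j Q)) (t • y) = 0 := congrFun (congrFun h3 i) j
  rw [hom_pd3 hQ k i j y hy t ht] at h4
  exact (mul_eq_zero.1 h4).resolve_left (zpow_ne_zero _ ht.ne')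

end Pool.Agent.U631.LW
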