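import Pool.Agent.R774.BW.Ten

/-!
# The mean Cartan form is the derivative of `log det A`, and vanishes somewhere
-/

set_option autoImplicit false

open scoped BigOperators ContDiff Topology
open Filter Set

namespace Pool.Agent.U631.LW

open Pool.Agent.R774.BW

variable {n : ℕ}

/-- a continuous function which is homogeneous of degree `0` has a maximum -/
theorem exists_max (hn : 1 ≤ n) {f : (Fin n → ℝ) → ℝ} (hf : ∀ y, y ≠ 0 → ContinuousAt f y)
    (hh : ∀ y, y ≠ 0 → ∀ t : ℝ, 0 < t → f (t • y) = f y) :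
    ∃ y, y ≠ 0 ∧ ∀ z, z ≠ 0 → f z ≤ f y := by
  have : Nonempty (Fin n) := ⟨⟨0, hn⟩⟩
  have hc : IsCompact (Metric.sphere (0 : Fin n → ℝ) 1) := isCompact_sphere _ _
  have hne : (Metric.sphere (0 : Fin n → ℝ) 1).Nonempty := NormedSpace.sphere_nonempty.2 zero_le_one
  obtain ⟨y, hy, hmax⟩ := hc.exists_isMaxOn hne
    (fun z hz => (hf z (ne_zero_of_mem_unit_sphere ⟨z, hz⟩)).continuousWithinAt)
  refine ⟨y, ne_zero_of_mem_unit_sphere ⟨y, hy⟩, fun z hz => ?_⟩
  have hz' : 0 < ‖z‖ := norm_pos_iff.2 hz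
  have h1 : ‖z‖⁻¹ • z ∈ Metric.sphere (0 : Fin n → ℝ) 1 := by
    rw [mem_sphere_zero_iff_norm, norm_smul, norm_inv, norm_norm, inv_mul_cancel₀ hz'.ne']
  have h2 := hmax h1
  rw [← hh z hz ‖z‖⁻¹ (inv_pos.2 hz')]
  exact h2

/-- the ring of the functions which are differentiable at `y` -/
def Dr (y : Fin n → ℝ) : Subring ((Fin n → ℝ) → ℝ) where
  carrier := {f | DifferentiableAt ℝ f y}
  mul_mem' := fun ha hb => DifferentiableAt.mul ha hb
  one_mem' := differentiableAt_const _
  add_mem' := fun ha hb => DifferentiableAt.add ha hb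
  zero_mem' := differentiableAt_const _
  neg_mem' := fun ha => DifferentiableAt.neg ha

/-- value and derivative as a ring homomorphism -/
noncomputable def dualHom (y : Fin n → ℝ) (k : Fin n) : Dr y →+* DualNumber ℝ where
  toFun f := TrivSqZeroExt.inl (f.1 y) + TrivSqZeroExt.inr (pd k f.1 y)
  map_one' := by
    ext
    · simp
    · have : pd k (1 : (Fin n → ℝ) → ℝ) y = 0 := pd_const 1 k y
      simp [this]
  map_zero' := by
    ext
    · simp
    · have : pd k (0 : (Fin n → ℝ) → ℝ) y = 0 := pd_const 0 k y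
      simp [this]
  map_add' f g := by
    have : pd k ((f : (Fin n → ℝ) → ℝ) + (g : (Fin n → ℝ) → ℝ)) y = pd k f.1 y + pd k g.1 y := by
      unfold pd
      rw [fderiv_add f.2 g.2]; rfl
    ext
    · simp
    · simp [this]
  map_mul' f g := by
    have : pd k ((f : (Fin n → ℝ) → ℝ) * (g : (Fin n → ℝ) → ℝ)) y =
        f.1 y * pd k g.1 y + pd k f.1 y * g.1 y := by
      unfold pd
      rw [fderiv_mul f.2 g.2]
      simp [mul_comm]
    ext
    · simp
    · simp [this]

lemma dualHom_apply (y : Fin n → ℝ) (k : Fin n) (f : Dr y) : dualHom y k f =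
    TrivSqZeroExt.inl (f.1 y) + TrivSqZeroExt.inr (pd k f.1 y) := rfl

section
variable {Q : (Fin n → ℝ) → ℝ} (hQ : MN Q)
include hQ

/-- **Jacobi's formula** -/
theorem pd_det (k : Fin n) {y : Fin n → ℝ} (hy : y ≠ 0) :
    pd k (fun z => (A Q z).det) y = (A Q y).det * th Q k y := by
  let M : Matrix (Fin n) (Fin n) (Dr y) := Matrix.of fun i j =>
    ⟨fun z => A Q z i j, ((hQ.sm.pd j).pd i).diff hy⟩
  have hM : (M.det : (Fin n → ℝ) → ℝ) = fun z => (A Q z).det := by
    ext z
    let e : Dr y →+* ℝ := (Pi.evalRingHom (fun _ : Fin n → ℝ => ℝ) z).comp (Dr y).subtype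
    have h1 : e M.det = (e.mapMatrix M).det := RingHom.map_det e M
    exact h1
  let ι : ℝ →+* DualNumber ℝ := TrivSqZeroExt.inlHom ℝ ℝ
  let ε : DualNumber ℝ := TrivSqZeroExt.inr 1
  have hε : ε ^ 2 = 0 := by
    rw [pow_two]; exact TrivSqZeroExt.inr_mul_inr ℝ 1 1
  let dA : Matrix (Fin n) (Fin n) ℝ := Matrix.of fun i j => pd k (pd i (pd j Q)) y
  have hinv : A Q y * (A Q y)⁻¹ = 1 :=
    Matrix.mul_nonsing_inv (A Q y) (isUnit_iff_ne_zero.2 (A_det_pos hQ hy).ne')
  have h1 : (dualHom y k).mapMatrix M =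
      ι.mapMatrix (A Q y) * (1 + ε • ι.mapMatrix ((A Q y)⁻¹ * dA)) := by
    rw [mul_add, mul_one, Matrix.mul_smul, ← map_mul, ← mul_assoc, hinv, one_mul]
    ext i j
    · simp [dualHom_apply, ι, ε, M]
    · simp [dualHom_apply, ι, ε, M, dA]
      rfl
  have h2 := congrArg Matrix.det h1
  rw [Matrix.det_mul, Matrix.det_one_add_smul, hε, mul_zero, add_zero, ← RingHom.map_det,
    ← RingHom.map_det] at h2
  have h3 : (ι.mapMatrix ((A Q y)⁻¹ * dA)).trace = ι ((A Q y)⁻¹ * dA).trace := by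
    rw [Matrix.trace, Matrix.trace, map_sum]
    rfl
  rw [h3] at h2
  have h4 := congrArg TrivSqZeroExt.snd h2
  have h5 : pd k (M.det : (Fin n → ℝ) → ℝ) y = (A Q y).det * ((A Q y)⁻¹ * dA).trace := by
    simpa [dualHom_apply, ι, ε] using h4
  rw [hM] at h5
  rw [h5]
  congr 1
  unfold th
  rw [Matrix.trace]
  refine Finset.sum_congr rfl fun i _ => ?_
  rw [Matrix.diag_apply, Matrix.mul_apply]
  refine Finset.sum_congr rfl fun j _ => ?_
  show P Q i j y * pd k (pd j (pd i Q)) y = _
  rw [pd3_symm2 hQ k j i hy]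

end

/-- the mean Cartan form vanishes somewhere -/
theorem jac : S_jac := by
  intro n hn Q hQ
  have hdet : ∀ y, y ≠ 0 → DifferentiableAt ℝ (fun z => (A Q z).det) y := by
    intro y hy
    have : ContDiffAt ℝ ∞ (fun z => (A Q z).det) y := by
      simp only [Matrix.det_apply']
      refine ContDiffAt.sum fun s _ => ?_
      refine contDiffAt_const.mul ?_
      exact contDiffAt_prod fun k _ => ((hQ.sm.pd _).pd _) y hy
    exact this.differentiableAt (by simp)
  obtain ⟨y, hy, hmax⟩ := exists_max hn (f := fun z => (A Q z).det)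
    (fun y hy => (hdet y hy).continuousAt) (fun y hy t ht => by
      have : A Q (t • y) = A Q y := by
        ext a b
        have := hom_pd2 hQ a b y hy t ht
        simpa [A] using this
      show (A Q (t • y)).det = _
      rw [this])
  refine ⟨y, hy, fun k => ?_⟩
  have hloc : IsLocalMax (fun z => (A Q z).det) y := by
    filter_upwards [isOpen_ne0.mem_nhds hy] with z hz using hmax z hz
  have h1 : pd k (fun z => (A Q z).det) y = 0 := by
    unfold pd
    rw [hloc.fderiv_eq_zero]; rfl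
  rw [pd_det hQ k hy] at h1
  exact (mul_eq_zero.1 h1).resolve_left (A_det_pos hQ hy).ne'

end Pool.Agent.U631.LW
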