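import Pool.Agent.U631.LW.Jac

/-!
# The Legendre transform, and functions which are constant along the dual lines
-/

set_option autoImplicit false

open scoped BigOperators ContDiff Topology
open Filter Set

namespace Pool.Agent.U631.LW

open Pool.Agent.R774.BW

variable {n : ℕ}

/-- the Legendre map -/
noncomputable def Lg (Q : (Fin n → ℝ) → ℝ) (y : Fin n → ℝ) : Fin n → ℝ := fun i => pd i Q y

section
variable {Q : (Fin n → ℝ) → ℝ} (hQ : MN Q)
include hQ

theorem Lg_smul {y : Fin n → ℝ} (hy : y ≠ 0) {t : ℝ} (ht : 0 < t) : Lg Q (t • y) = t • Lg Q y := by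
  ext i
  have := hom_pd1 hQ i y hy t ht
  simpa [Lg] using this

theorem Lg_contDiffAt {y : Fin n → ℝ} (hy : y ≠ 0) : ContDiffAt ℝ ∞ (Lg Q) y :=
  contDiffAt_pi.2 fun i => hQ.sm.pd i y hy

theorem fderiv_Lg {y : Fin n → ℝ} (hy : y ≠ 0) (z : Fin n → ℝ) (l : Fin n) :
    fderiv ℝ (Lg Q) y z l = ∑ i, pd i (pd l Q) y * z i := by
  have h1 : HasFDerivAt (Lg Q) (fderiv ℝ (Lg Q) y) y :=
    ((Lg_contDiffAt hQ hy).differentiableAt (by simp)).hasFDerivAt
  have h2 := (hasFDerivAt_pi'.1 h1) l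
  have h3 : fderiv ℝ (pd l Q) y = (ContinuousLinearMap.proj l).comp (fderiv ℝ (Lg Q) y) :=
    h2.fderiv
  have h4 := congrArg (fun M : (Fin n → ℝ) →L[ℝ] ℝ => M z) h3
  simp only [ContinuousLinearMap.comp_apply, ContinuousLinearMap.proj_apply] at h4
  rw [← h4, fderiv_eq_sum]
  exact Finset.sum_congr rfl fun i _ => mul_comm _ _

theorem quad_pos {y : Fin n → ℝ} (hy : y ≠ 0) {v : Fin n → ℝ} (hv : v ≠ 0) :
    0 < ∑ l, v l * fderiv ℝ (Lg Q) y v l := by
  refine lt_of_lt_of_eq (hQ.conv y hy v hv) ?_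
  rw [Finset.sum_comm]
  refine Finset.sum_congr rfl fun l _ => ?_
  rw [fderiv_Lg hQ hy, Finset.mul_sum]
  exact Finset.sum_congr rfl fun i _ => by ring

/-- the derivative as an equivalence -/
theorem exists_equiv {y : Fin n → ℝ} (hy : y ≠ 0) :
    ∃ e : (Fin n → ℝ) ≃L[ℝ] (Fin n → ℝ), (e : (Fin n → ℝ) →L[ℝ] (Fin n → ℝ)) =
      fderiv ℝ (Lg Q) y := by
  have hinj : Function.Injective (fderiv ℝ (Lg Q) y : (Fin n → ℝ) →ₗ[ℝ] (Fin n → ℝ)) := by
    rw [injective_iff_map_eq_zero]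
    intro v hv
    by_contra hne
    have h1 := quad_pos hQ hy hne
    have h2 : fderiv ℝ (Lg Q) y v = 0 := hv
    rw [h2] at h1
    simp at h1
  refine ⟨(LinearEquiv.ofInjectiveEndo _ hinj).toContinuousLinearEquiv, ?_⟩
  ext v
  rfl

theorem Lg_inj {y₁ y₂ : Fin n → ℝ} (h1 : y₁ ≠ 0) (h2 : y₂ ≠ 0) (h : Lg Q y₁ = Lg Q y₂) :
    y₁ = y₂ := by
  by_contra hne
  have hv : y₂ - y₁ ≠ 0 := sub_ne_zero.2 (Ne.symm hne)
  set v := y₂ - y₁ with hvd
  by_cases hseg : ∀ s ∈ Icc (0 : ℝ) 1, y₁ + s • v ≠ 0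
  · have hd : ∀ s ∈ Icc (0 : ℝ) 1, HasDerivAt (fun s : ℝ => ∑ l, v l * Lg Q (y₁ + s • v) l)
        (∑ l, v l * fderiv ℝ (Lg Q) (y₁ + s • v) v l) s := by
      intro s hs
      have e1 : HasFDerivAt (Lg Q) (fderiv ℝ (Lg Q) (y₁ + s • v)) (y₁ + s • v) :=
        ((Lg_contDiffAt hQ (hseg s hs)).differentiableAt (by simp)).hasFDerivAt
      have e2 : HasDerivAt (fun s : ℝ => y₁ + s • v) v s := by
        simpa using ((hasDerivAt_id s).smul_const v).const_add y₁
      have e3 := e1.comp_hasDerivAt s e2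
      have e4 := hasDerivAt_pi.1 e3
      exact HasDerivAt.fun_sum fun l _ => (e4 l).const_mul (v l)
    obtain ⟨s, hs, hs0⟩ := exists_hasDerivAt_eq_zero (f := fun s : ℝ => ∑ l, v l * Lg Q (y₁ + s • v) l)
      (f' := fun s => ∑ l, v l * fderiv ℝ (Lg Q) (y₁ + s • v) v l) zero_lt_one
      (fun s hs => (hd s hs).continuousAt.continuousWithinAt) (by
        have : y₁ + v = y₂ := by rw [hvd]; abel
        simp only [zero_smul, add_zero, one_smul, this, h])
      (fun s hs => hd s (Ioo_subset_Icc_self hs))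
    have := quad_pos hQ (hseg s (Ioo_subset_Icc_self hs)) hv
    linarith
  · push Not at hseg
    obtain ⟨s, hs, hs0⟩ := hseg
    have e0 : (1 - s) • y₁ + s • y₂ = 0 := by
      rw [← hs0, hvd, smul_sub, sub_smul, one_smul]; abel
    have e1 := euler1 hQ h1
    have e2 := euler1 hQ h2
    have p1 := hQ.pos y₁ h1
    have p2 := hQ.pos y₂ h2
    have e3 : (1 - s) * ∑ i, y₁ i * Lg Q y₁ i + s * ∑ i, y₂ i * Lg Q y₂ i = 0 := by
      rw [← h, Finset.mul_sum, Finset.mul_sum, ← Finset.sum_add_distrib]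
      refine Finset.sum_eq_zero fun i _ => ?_
      have := congrFun e0 i
      simp only [Pi.add_apply, Pi.smul_apply, smul_eq_mul, Pi.zero_apply] at this
      calc _ = ((1 - s) * y₁ i + s * y₂ i) * Lg Q y₁ i := by ring
        _ = 0 := by rw [this, zero_mul]
    have e1' : ∑ i, y₁ i * Lg Q y₁ i = 2 * Q y₁ := e1
    have e2' : ∑ i, y₂ i * Lg Q y₂ i = 2 * Q y₂ := e2
    rw [e1', e2'] at e3
    have a1 : 0 ≤ (1 - s) * (2 * Q y₁) := mul_nonneg (by linarith [hs.2]) (by linarith)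
    have a2 : 0 ≤ s * (2 * Q y₂) := mul_nonneg hs.1 (by linarith)
    have a3 : s * (2 * Q y₂) = 0 := by linarith
    have a4 : (1 - s) * (2 * Q y₁) = 0 := by linarith
    have b1 : s = 0 := (mul_eq_zero.1 a3).resolve_right (by positivity)
    have b2 : 1 - s = 0 := (mul_eq_zero.1 a4).resolve_right (by positivity)
    rw [b1] at b2
    norm_num at b2

theorem Lg_surj {p : Fin n → ℝ} (hp : p ≠ 0) : ∃ y, y ≠ 0 ∧ Lg Q y = p := by
  have hn : 1 ≤ n := by
    by_contra h
    have h0 : n = 0 := by omega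
    subst h0
    exact hp (Subsingleton.elim _ _)
  have hlin : ∀ y : Fin n → ℝ, HasFDerivAt (fun y : Fin n → ℝ => ∑ i, p i * y i)
      (∑ i, p i • (ContinuousLinearMap.proj (R := ℝ) (φ := fun _ : Fin n => ℝ) i)) y := by
    intro y
    exact HasFDerivAt.fun_sum fun i _ => (hasFDerivAt_apply i y).const_mul (p i)
  have hsq : ∀ y, y ≠ 0 → HasFDerivAt (fun y => Real.sqrt (Q y))
      ((1 / (2 * Real.sqrt (Q y))) • fderiv ℝ Q y) y := fun y hy =>
    (hQ.sm.diff hy).hasFDerivAt.sqrt (hQ.pos y hy).ne'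
  have hsp : ∀ y, y ≠ 0 → 0 < Real.sqrt (Q y) := fun y hy => Real.sqrt_pos.2 (hQ.pos y hy)
  obtain ⟨y, hy, hmax⟩ := exists_max hn (f := fun y => (∑ i, p i * y i) / Real.sqrt (Q y))
    (fun y hy => (hlin y).continuousAt.div (hsq y hy).continuousAt (hsp y hy).ne')
    (fun y hy t ht => by
      have e1 : ∑ i, p i * (t • y) i = t * ∑ i, p i * y i := by
        rw [Finset.mul_sum]
        exact Finset.sum_congr rfl fun i _ => by
          rw [Pi.smul_apply, smul_eq_mul]; ring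
      rw [e1, hQ.hom y hy t ht, Real.sqrt_mul (sq_nonneg t), Real.sqrt_sq ht.le,
        mul_div_mul_left _ _ ht.ne'])
  have hpp : 0 < ∑ i, p i * p i := by
    obtain ⟨i, hi⟩ : ∃ i, p i ≠ 0 := by
      by_contra h; push Not at h; exact hp (funext h)
    exact Finset.sum_pos' (fun i _ => mul_self_nonneg _) ⟨i, Finset.mem_univ _,
      mul_self_pos.2 hi⟩
  have hval : 0 < (∑ i, p i * y i) / Real.sqrt (Q y) :=
    lt_of_lt_of_le (div_pos hpp (hsp p hp)) (hmax p hp)
  have hpy : 0 < ∑ i, p i * y i := by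
    have := mul_pos hval (hsp y hy)
    rwa [div_mul_cancel₀ _ (hsp y hy).ne'] at this
  set r := Real.sqrt (Q y) with hr
  set c := ∑ i, p i * y i with hc
  have hrp : 0 < r := hsp y hy
  have hloc : IsLocalMax (fun z => (∑ i, p i * z i) * r - c * Real.sqrt (Q z)) y := by
    filter_upwards [isOpen_ne0.mem_nhds hy] with z hz
    have h1 := hmax z hz
    rw [div_le_div_iff₀ (hsp z hz) hrp] at h1
    show (∑ i, p i * z i) * r - c * Real.sqrt (Q z) ≤ (∑ i, p i * y i) * r - c * Real.sqrt (Q y)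
    linarith
  have hder : HasFDerivAt (fun z => (∑ i, p i * z i) * r - c * Real.sqrt (Q z))
      (r • (∑ i, p i • (ContinuousLinearMap.proj (R := ℝ) (φ := fun _ : Fin n => ℝ) i)) -
        c • ((1 / (2 * r)) • fderiv ℝ Q y)) y :=
    ((hlin y).mul_const r).sub ((hsq y hy).const_mul c)
  have h0 := hloc.hasFDerivAt_eq_zero hder
  have hk : ∀ k, p k = c / (2 * Q y) * pd k Q y := by
    intro k
    have h1 := congrArg (fun M : (Fin n → ℝ) →L[ℝ] ℝ => M (Pi.single k (1 : ℝ))) h0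
    simp only [_root_.sub_apply, _root_.smul_apply, ContinuousLinearMap.sum_apply,
      ContinuousLinearMap.proj_apply, smul_eq_mul, Pi.single_apply, mul_ite, mul_one, mul_zero,
      Finset.sum_ite_eq', Finset.mem_univ, if_true, _root_.zero_apply] at h1
    have h2 : r * p k = c * (1 / (2 * r) * pd k Q y) := by
      unfold pd
      linarith
    have h3 : r * r = Q y := Real.mul_self_sqrt (hQ.pos y hy).le
    have hr0 := hrp.ne'
    rw [← h3]
    field_simp at h2 ⊢
    linarith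
  have hcp : 0 < c / (2 * Q y) := div_pos hpy (by linarith [hQ.pos y hy])
  refine ⟨(c / (2 * Q y)) • y, smul_ne_zero hcp.ne' hy, ?_⟩
  rw [Lg_smul hQ hy hcp]
  ext k
  exact (hk k).symm

/-- the inverse of the Legendre map -/
theorem exists_inv : ∃ G : (Fin n → ℝ) → (Fin n → ℝ), (∀ p, p ≠ 0 → G p ≠ 0 ∧ Lg Q (G p) = p) ∧
    (∀ y, y ≠ 0 → G (Lg Q y) = y) ∧
    ∀ p, p ≠ 0 → ∃ e : (Fin n → ℝ) →L[ℝ] (Fin n → ℝ), HasFDerivAt G e p ∧
      ∀ w l, ∑ i, pd i (pd l Q) (G p) * e w i = w l := by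
  classical
  choose! G hG0 hG using fun p (hp : p ≠ 0) => Lg_surj hQ hp
  have hL0 : ∀ y, y ≠ 0 → Lg Q y ≠ 0 := by
    intro y hy h
    have h1 := euler1 hQ hy
    have h2 := hQ.pos y hy
    have h3 : ∀ i, pd i Q y = 0 := fun i => congrFun h i
    simp only [h3, mul_zero, Finset.sum_const_zero] at h1
    linarith
  have hGL : ∀ y, y ≠ 0 → G (Lg Q y) = y := fun y hy =>
    Lg_inj hQ (hG0 _ (hL0 y hy)) hy (hG _ (hL0 y hy))
  refine ⟨G, fun p hp => ⟨hG0 p hp, hG p hp⟩, hGL, fun p hp => ?_⟩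
  obtain ⟨e, he⟩ := exists_equiv hQ (hG0 p hp)
  have hs : HasStrictFDerivAt (Lg Q) (e : (Fin n → ℝ) →L[ℝ] (Fin n → ℝ)) (G p) := by
    rw [he]
    exact (Lg_contDiffAt hQ (hG0 p hp)).hasStrictFDerivAt (by simp)
  have h1 := hs.to_localInverse
  have h2 := hs.localInverse_tendsto
  have h3 := hs.eventually_right_inverse
  rw [hG p hp] at h1 h2 h3
  have h4 : G =ᶠ[𝓝 p] hs.localInverse _ _ _ := by
    filter_upwards [h3, h2.eventually (isOpen_ne0.mem_nhds (hG0 p hp)),
      isOpen_ne0.mem_nhds hp] with q hq hq' hq''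
    exact Lg_inj hQ (hG0 q hq'') hq' ((hG q hq'').trans hq.symm)
  refine ⟨e.symm, h1.hasFDerivAt.congr_of_eventuallyEq h4, fun w l => ?_⟩
  rw [← fderiv_Lg hQ (hG0 p hp), ← he]
  simp

end

/-- a function which is homogeneous of degree zero and constant along the lines in the direction
`w` of the dual space is constant -/
theorem leg : S_leg := by
  intro n hn Q hQ w hw Φ hΦ hΦ0 hΦw
  obtain ⟨G, hG, hGL, hGd⟩ := exists_inv hQ
  have hGc : ∀ p, p ≠ 0 → ContinuousAt G p := fun p hp => by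
    obtain ⟨e, he, -⟩ := hGd p hp
    exact he.continuousAt
  have hGs : ∀ p, p ≠ 0 → ∀ t : ℝ, 0 < t → G (t • p) = t • G p := by
    intro p hp t ht
    refine Lg_inj hQ (hG _ (smul_ne_zero ht.ne' hp)).1 (smul_ne_zero ht.ne' (hG p hp).1) ?_
    rw [(hG _ (smul_ne_zero ht.ne' hp)).2, Lg_smul hQ (hG p hp).1 ht, (hG p hp).2]
  -- points whose ray in the direction `w` avoids `0`
  have key : ∀ p, p ≠ 0 → (∀ t : ℝ, 0 ≤ t → p + t • w ≠ 0) → Φ (G p) = Φ (G w) := by
    intro p hp hray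
    have hconst : ∀ t : ℝ, 0 ≤ t → Φ (G (p + t • w)) = Φ (G p) := by
      intro b hb
      have hd : ∀ t ∈ Icc (0 : ℝ) b, HasDerivAt (fun t : ℝ => Φ (G (p + t • w))) 0 t := by
        intro t ht
        have hne := hray t ht.1
        obtain ⟨e, he, he'⟩ := hGd _ hne
        have e1 : HasDerivAt (fun t : ℝ => p + t • w) w t := by
          simpa using ((hasDerivAt_id t).smul_const w).const_add p
        have e2 := he.comp_hasDerivAt t e1
        have e3 := (hΦ _ (hG _ hne).1).hasFDerivAt.comp_hasDerivAt t e2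
        have e4 := hΦw _ (hG _ hne).1 (e w) (fun l => he' w l)
        rw [e4] at e3
        exact e3
      have := constant_of_has_deriv_right_zero (f := fun t : ℝ => Φ (G (p + t • w))) (a := 0)
        (b := b) (fun t ht => (hd t ht).continuousAt.continuousWithinAt)
        (fun t ht => (hd t (Ico_subset_Icc_self ht)).hasDerivWithinAt) b ⟨hb, le_rfl⟩
      simpa using this
    have hlim : Tendsto (fun t : ℝ => Φ (G (t⁻¹ • p + w))) atTop (𝓝 (Φ (G w))) := by
      have h1 : Tendsto (fun t : ℝ => t⁻¹ • p + w) atTop (𝓝 ((0 : ℝ) • p + w)) :=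
        (tendsto_inv_atTop_zero.smul_const p).add_const w
      rw [zero_smul, zero_add] at h1
      exact ((hΦ _ (hG w hw).1).continuousAt.tendsto.comp (hGc w hw)).comp h1
    have hev : (fun t : ℝ => Φ (G (t⁻¹ • p + w))) =ᶠ[atTop] fun _ => Φ (G p) := by
      filter_upwards [eventually_gt_atTop (0 : ℝ)] with t ht
      have hne := hray t ht.le
      have e1 : t⁻¹ • p + w = t⁻¹ • (p + t • w) := by
        rw [smul_add, smul_smul, inv_mul_cancel₀ ht.ne', one_smul]
      rw [e1, hGs _ hne _ (inv_pos.2 ht), hΦ0 _ (hG _ hne).1 _ (inv_pos.2 ht), hconst t ht.le]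
    exact (tendsto_nhds_unique hlim (tendsto_const_nhds.congr' hev.symm)).symm
  refine ⟨Φ (G w), fun y hy => ?_⟩
  have hp : Lg Q y ≠ 0 := by
    intro h
    have h1 := euler1 hQ hy
    have h2 := hQ.pos y hy
    have h3 : ∀ i, pd i Q y = 0 := fun i => congrFun h i
    simp only [h3, mul_zero, Finset.sum_const_zero] at h1
    linarith
  rw [← hGL y hy]
  set p := Lg Q y with hpd
  by_cases hray : ∀ t : ℝ, 0 ≤ t → p + t • w ≠ 0
  · exact key p hp hray
  · push Not at hray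
    obtain ⟨t₀, ht₀, h0⟩ := hray
    obtain ⟨a, ha⟩ : ∃ a, w a ≠ 0 := by
      by_contra h; push Not at h; exact hw (funext h)
    obtain ⟨a', ha'⟩ : ∃ a' : Fin n, a' ≠ a := by
      have : Nontrivial (Fin n) := Fin.nontrivial_iff_two_le.2 hn
      exact exists_ne a
    set q : Fin n → ℝ := Pi.single a' (1 : ℝ) with hq
    have hne : ∀ ε : ℝ, ε ≠ 0 → ∀ t : ℝ, p + ε • q + t • w ≠ 0 := by
      intro ε hε t h
      have h1 : (t - t₀) • w + ε • q = 0 := by
        rw [← h, sub_smul]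
        have : p = -(t₀ • w) := eq_neg_of_add_eq_zero_left h0
        rw [this]; abel
      have e1 := congrFun h1 a
      have e2 := congrFun h1 a'
      simp only [Pi.add_apply, Pi.smul_apply, smul_eq_mul, hq, Pi.zero_apply,
        Pi.single_eq_of_ne ha'.symm, mul_zero, add_zero, Pi.single_eq_same, mul_one] at e1 e2
      have hs : t - t₀ = 0 := (mul_eq_zero.1 e1).resolve_right ha
      rw [hs, zero_mul, zero_add] at e2
      exact hε e2
    have h5 : ∀ ε : ℝ, ε ≠ 0 → Φ (G (p + ε • q)) = Φ (G w) := by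
      intro ε hε
      refine key _ ?_ fun t _ => hne ε hε t
      have := hne ε hε 0
      rwa [zero_smul, add_zero] at this
    have h6 : Tendsto (fun ε : ℝ => Φ (G (p + ε • q))) (𝓝[≠] 0) (𝓝 (Φ (G p))) := by
      have h7 : Tendsto (fun ε : ℝ => p + ε • q) (𝓝 0) (𝓝 (p + (0 : ℝ) • q)) :=
        (tendsto_id.smul_const q).const_add p
      rw [zero_smul, add_zero] at h7
      exact (((hΦ _ (hG p hp).1).continuousAt.tendsto.comp (hGc p hp)).comp h7).mono_left
        nhdsWithin_le_nhds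
    have h8 : Tendsto (fun ε : ℝ => Φ (G (p + ε • q))) (𝓝[≠] 0) (𝓝 (Φ (G w))) := by
      refine tendsto_const_nhds.congr' ?_
      filter_upwards [self_mem_nhdsWithin] with ε hε using (h5 ε hε).symm
    exact tendsto_nhds_unique h6 h8

end Pool.Agent.U631.LW
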