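import Pool.Agent.U631.LW.Dei
import Pool.Agent.U631.LW.Leg
import Pool.Agent.R774.BW.Conf

/-!
# Weakly Landsberg metrics: semi-symmetric connections and conformal changes
-/

set_option autoImplicit false

open scoped BigOperators ContDiff Topology
open Filter Set

namespace Pool.Agent.U631.LW

open Pool.Agent.R774.BW

variable {n : ℕ}

/-- a Minkowski norm without Cartan tensor is Euclidean -/
theorem quad_of_cartan (hn : 2 ≤ n) {Q : (Fin n → ℝ) → ℝ} (hQ : MN Q)
    (h : ∀ y, y ≠ 0 → ∀ i j k, pd k (pd i (pd j Q)) y = 0) :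
    ∃ g : Matrix (Fin n) (Fin n) ℝ, ∀ y, y ≠ 0 → Q y = ∑ i, ∑ j, g i j * y i * y j := by
  have hcon : IsPreconnected {y : Fin n → ℝ | y ≠ 0} := by
    refine (isConnected_compl_singleton_of_one_lt_rank ?_ (0 : Fin n → ℝ)).isPreconnected
    rw [rank_fun', Fintype.card_fin]
    exact_mod_cast hn
  have hconst : ∀ i j, ∃ c, ∀ y, y ≠ 0 → pd i (pd j Q) y = c := by
    intro i j
    refine IsOpen.exists_is_const_of_fderiv_eq_zero (𝕜 := ℝ) isOpen_ne0 hcon
      (fun y hy => (((hQ.sm.pd j).pd i).diff hy).differentiableWithinAt) (fun y hy => ?_)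
    ext z
    rw [fderiv_eq_sum]
    simp only [h y hy, mul_zero, Finset.sum_const_zero]
    rfl
  choose c hc using hconst
  refine ⟨Matrix.of fun i j => c i j / 2, fun y hy => ?_⟩
  have e1 := euler1 hQ hy
  have e2 : ∀ j, ∑ i, y i * pd i (pd j Q) y = pd j Q y := fun j => euler2 hQ j hy
  have e3 : 2 * Q y = ∑ i, ∑ j, c i j * y i * y j := by
    rw [← e1, Finset.sum_comm]
    refine Finset.sum_congr rfl fun j _ => ?_
    rw [← e2 j, Finset.mul_sum]
    refine Finset.sum_congr rfl fun i _ => ?_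
    rw [hc i j y hy]; ring
  have e4 : ∑ i, ∑ j, (Matrix.of fun i j => c i j / 2 : Matrix (Fin n) (Fin n) ℝ) i j * y i * y j =
      (∑ i, ∑ j, c i j * y i * y j) / 2 := by
    rw [Finset.sum_div]
    refine Finset.sum_congr rfl fun i _ => ?_
    rw [Finset.sum_div]
    refine Finset.sum_congr rfl fun j _ => ?_
    rw [Matrix.of_apply]; ring
  rw [e4, ← e3]; ring

end Pool.Agent.U631.LW
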